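import Mathlib

/-!
Every finite graph with at least three vertices has a locating-dominating coalition partition:
take a maximal set `M` among the sets that are not locating-dominating, and the singletons
of the vertices outside `M`.
-/

namespace Pool.Agent.Results.MP_c852bb_co.LDCExists

universe u

/-- `D` is a dominating set of `G`. -/
def IsDominating {V : Type u} (G : SimpleGraph V) (D : Set V) : Prop :=
  ∀ v, v ∉ D → ∃ w ∈ D, G.Adj v w

/-- `D` is a locating-dominating set (LD-set) of `G`. -/
def IsLD {V : Type u} (G : SimpleGraph V) (D : Set V) : Prop :=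
  IsDominating G D ∧
    ∀ x y, x ∉ D → y ∉ D → x ≠ y → G.neighborSet x ∩ D ≠ G.neighborSet y ∩ D

/-- `X` and `Y` form an LD-coalition of `G`. -/
def IsLDCoalition {V : Type u} (G : SimpleGraph V) (X Y : Set V) : Prop :=
  Disjoint X Y ∧ ¬ IsLD G X ∧ ¬ IsLD G Y ∧ IsLD G (X ∪ Y)

/-- `P` is an LDC-partition of `G`: a partition of the vertex set into nonempty sets, none
of which is an LD-set, such that each part forms an LD-coalition with another part. -/
def IsLDCPartition {V : Type u} (G : SimpleGraph V) (P : Set (Set V)) : Prop :=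
  Setoid.IsPartition P ∧ (∀ X ∈ P, ¬ IsLD G X) ∧
    ∀ X ∈ P, ∃ Y ∈ P, Y ≠ X ∧ IsLDCoalition G X Y

theorem isLD_univ {V : Type u} (G : SimpleGraph V) : IsLD G Set.univ := by
  refine ⟨fun v hv => absurd (Set.mem_univ v) hv, fun x y hx => absurd (Set.mem_univ x) hx⟩

theorem not_isLD_singleton {V : Type u} [Finite V] (G : SimpleGraph V)
    (h3 : 3 ≤ Nat.card V) (a : V) : ¬ IsLD G {a} := by
  classical
  haveI := Fintype.ofFinite V
  rw [Nat.card_eq_fintype_card] at h3
  intro h
  -- there are two further vertices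
  have h2 : 1 < (Finset.univ.erase a : Finset V).card := by
    rw [Finset.card_erase_of_mem (Finset.mem_univ a), Finset.card_univ]
    omega
  obtain ⟨x, hx, y, hy, hxy⟩ := Finset.one_lt_card.mp h2
  have hxa : x ≠ a := (Finset.mem_erase.mp hx).1
  have hya : y ≠ a := (Finset.mem_erase.mp hy).1
  have hadj : ∀ z, z ≠ a → G.neighborSet z ∩ {a} = {a} := by
    intro z hz
    obtain ⟨w, hw, hzw⟩ := h.1 z (by simpa using hz)
    have : w = a := hw
    subst this
    ext t
    constructor
    · intro ht; exact ht.2
    · intro ht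
      have : t = w := ht
      subst this
      exact ⟨hzw, rfl⟩
  exact h.2 x y (by simpa using hxa) (by simpa using hya) hxy
    (by rw [hadj x hxa, hadj y hya])

theorem result {V : Type u} [Finite V] (G : SimpleGraph V) (h3 : 3 ≤ Nat.card V) :
    ∃ P : Set (Set V), IsLDCPartition G P := by
  classical
  -- a maximal non-LD set containing a given vertex
  haveI : Nonempty V := (Nat.card_pos_iff.mp (by omega)).1
  obtain ⟨a⟩ := ‹Nonempty V›
  have hfin : {S : Set V | ¬ IsLD G S}.Finite := Set.toFinite _
  obtain ⟨M, haM, hM⟩ := hfin.exists_le_maximal (a := {a}) (not_isLD_singleton G h3 a)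
  have hMn : ¬ IsLD G M := hM.prop
  have haM' : a ∈ M := haM rfl
  have hadd : ∀ e, e ∉ M → IsLD G (M ∪ {e}) := by
    intro e he
    by_contra hc
    have : M ∪ {e} ≤ M := hM.le_of_ge hc Set.subset_union_left
    exact he (this (Set.mem_union_right _ rfl))
  obtain ⟨e0, he0⟩ : ∃ e, e ∉ M := by
    by_contra hc
    push Not at hc
    have : M = Set.univ := Set.eq_univ_of_forall hc
    exact hMn (this ▸ isLD_univ G)
  refine ⟨{X | X = M ∨ ∃ e, e ∉ M ∧ X = {e}}, ⟨?_, ?_⟩, ?_, ?_⟩
  · -- the empty set is not a part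
    rintro (h | ⟨e, -, h⟩)
    · rw [← h] at haM'
      exact haM'
    · exact Set.singleton_ne_empty e h.symm
  · intro v
    by_cases hv : v ∈ M
    · refine ⟨M, ⟨Or.inl rfl, hv⟩, ?_⟩
      rintro X ⟨(h | ⟨e, he, h⟩), hvX⟩
      · exact h
      · subst h
        have : v = e := hvX
        subst this
        exact absurd hv he
    · refine ⟨{v}, ⟨Or.inr ⟨v, hv, rfl⟩, rfl⟩, ?_⟩
      rintro X ⟨(h | ⟨e, he, h⟩), hvX⟩
      · subst h
        exact absurd hvX hv
      · subst h
        have : v = e := hvX
        subst this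
        rfl
  · rintro X (h | ⟨e, -, h⟩)
    · rw [h]; exact hMn
    · rw [h]; exact not_isLD_singleton G h3 e
  · have hdis : ∀ e, e ∉ M → Disjoint M {e} := by
      intro e he
      rw [Set.disjoint_singleton_right]
      exact he
    rintro X (h | ⟨e, he, h⟩)
    · subst h
      refine ⟨{e0}, Or.inr ⟨e0, he0, rfl⟩, ?_, hdis e0 he0, hMn,
        not_isLD_singleton G h3 e0, hadd e0 he0⟩
      intro h
      rw [← h] at he0
      exact he0 rfl
    · subst h
      refine ⟨M, Or.inl rfl, ?_, (hdis e he).symm, not_isLD_singleton G h3 e, hMn, ?_⟩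
      · intro h
        rw [h] at he
        exact he rfl
      · rw [Set.union_comm]
        exact hadd e he

end Pool.Agent.Results.MP_c852bb_co.LDCExists
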